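import Mathlib

/-!
MP_88c527_nt: lower bounds for `S(X) = ∑_{p < X} e(2 √p)`, in mean.
-/

open Finset MeasureTheory Complex Filter
open scoped Topology

namespace Pool.Agent.Lib_MP_88c527

/-- `S(X)`, the sum of `exp (2 π i · 2 √p)` over the primes `p < X`. -/
noncomputable def S (X : ℝ) : ℂ :=
  ∑ p ∈ (Finset.range ⌈X⌉₊).filter Nat.Prime,
    Complex.exp (2 * (Real.pi : ℂ) * Complex.I * (((2 * Real.sqrt (p : ℝ)) : ℝ) : ℂ))

/-- the summands -/
private noncomputable def c (k : ℕ) : ℂ :=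
  if k.Prime then Complex.exp (2 * (Real.pi : ℂ) * Complex.I * (((2 * Real.sqrt (k : ℝ)) : ℝ) : ℂ))
  else 0

/-- the sum over `p ≤ X` -/
private noncomputable def T (X : ℝ) : ℂ := ∑ k ∈ Finset.Icc 0 ⌊X⌋₊, c k

/-- the inverse phase -/
private noncomputable def E (t : ℝ) : ℂ :=
  Complex.exp (((-(4 * Real.pi * Real.sqrt t) : ℝ) : ℂ) * Complex.I)

private theorem norm_E (t : ℝ) : ‖E t‖ = 1 := by
  unfold E
  exact Complex.norm_exp_ofReal_mul_I _

private theorem E_mul_c (k : ℕ) : E k * c k = if k.Prime then 1 else 0 := by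
  unfold E c
  split_ifs with h
  · rw [← Complex.exp_add]
    have : ((-(4 * Real.pi * Real.sqrt (k : ℝ)) : ℝ) : ℂ) * Complex.I +
        2 * (Real.pi : ℂ) * Complex.I * (((2 * Real.sqrt (k : ℝ)) : ℝ) : ℂ) = 0 := by
      push_cast
      ring
    rw [this, Complex.exp_zero]
  · rw [mul_zero]

private theorem hasDerivAt_E {t : ℝ} (ht : 0 < t) :
    HasDerivAt E (E t * (((-(2 * Real.pi / Real.sqrt t) : ℝ) : ℂ) * Complex.I)) t := by
  have h1 : HasDerivAt (fun t : ℝ => -(4 * Real.pi * Real.sqrt t))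
      (-(2 * Real.pi / Real.sqrt t)) t := by
    have := ((Real.hasDerivAt_sqrt ht.ne').const_mul (4 * Real.pi)).neg
    have hs : Real.sqrt t ≠ 0 := (Real.sqrt_pos.2 ht).ne'
    have h2 : -(2 * Real.pi / Real.sqrt t) = -(4 * Real.pi * (1 / (2 * Real.sqrt t))) := by
      field_simp
      norm_num
    rw [h2]
    exact this
  have h2 := (h1.ofReal_comp).mul_const Complex.I
  exact h2.cexp

private theorem deriv_E {t : ℝ} (ht : 0 < t) :
    deriv E t = E t * (((-(2 * Real.pi / Real.sqrt t) : ℝ) : ℂ) * Complex.I) :=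
  (hasDerivAt_E ht).deriv

private theorem norm_deriv_E {t : ℝ} (ht : 0 < t) : ‖deriv E t‖ = 2 * Real.pi / Real.sqrt t := by
  rw [deriv_E ht, norm_mul, norm_E, one_mul, norm_mul, Complex.norm_I, mul_one, Complex.norm_real,
    norm_neg, Real.norm_of_nonneg (by positivity)]

/-- the number of primes in `(a, b]` -/
private theorem card_le {a b : ℝ} (ha : 1 ≤ a) (hab : a ≤ b) :
    (((Finset.Ioc ⌊a⌋₊ ⌊b⌋₊).filter Nat.Prime).card : ℝ) ≤
      ‖T b‖ + ‖T a‖ + 2 * Real.pi / Real.sqrt a * ∫ t in a..b, ‖T t‖ := by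
  have ha0 : 0 < a := by linarith
  have hcont : ContinuousOn (deriv E) (Set.Icc a b) := by
    have h1 : ContinuousOn (fun t : ℝ => E t * (((-(2 * Real.pi / Real.sqrt t) : ℝ) : ℂ) *
        Complex.I)) (Set.Icc a b) := by
      intro t ht
      have ht0 : 0 < t := lt_of_lt_of_le ha0 ht.1
      have hs : Real.sqrt t ≠ 0 := (Real.sqrt_pos.2 ht0).ne'
      apply ContinuousAt.continuousWithinAt
      refine ContinuousAt.mul (hasDerivAt_E ht0).continuousAt ?_
      refine ContinuousAt.mul ?_ continuousAt_const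
      refine Complex.continuous_ofReal.continuousAt.comp ?_
      refine ContinuousAt.neg ?_
      exact continuousAt_const.div Real.continuous_sqrt.continuousAt hs
    exact h1.congr (fun t ht => deriv_E (lt_of_lt_of_le ha0 ht.1))
  have hint : IntegrableOn (deriv E) (Set.Icc a b) := hcont.integrableOn_Icc
  have h := sum_mul_eq_sub_sub_integral_mul c ha0.le hab
    (fun t ht => (hasDerivAt_E (lt_of_lt_of_le ha0 ht.1)).differentiableAt) hint
  have hL : ∑ k ∈ Finset.Ioc ⌊a⌋₊ ⌊b⌋₊, E k * c k =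
      (((Finset.Ioc ⌊a⌋₊ ⌊b⌋₊).filter Nat.Prime).card : ℂ) := by
    rw [Finset.sum_congr rfl (fun k _ => E_mul_c k), Finset.sum_ite, Finset.sum_const_zero,
      add_zero, Finset.sum_const, nsmul_eq_mul, mul_one]
  rw [hL] at h
  have h2 : (((Finset.Ioc ⌊a⌋₊ ⌊b⌋₊).filter Nat.Prime).card : ℝ) =
      ‖(((Finset.Ioc ⌊a⌋₊ ⌊b⌋₊).filter Nat.Prime).card : ℂ)‖ := by
    rw [Complex.norm_natCast]
  rw [h2, h]
  have hTint : IntegrableOn T (Set.Icc a b) := by
    have := integrableOn_mul_sum_Icc c (m := 0) ha0.le (g := fun _ : ℝ => (1 : ℂ)) (a := a) (b := b)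
      (by simp)
    simp only [one_mul] at this
    exact this
  have hTint' : IntervalIntegrable (fun t => ‖T t‖) volume a b :=
    ((intervalIntegrable_iff_integrableOn_Icc_of_le hab).2 hTint).norm
  have h3 : ‖∫ t in Set.Ioc a b, deriv E t * ∑ k ∈ Finset.Icc 0 ⌊t⌋₊, c k‖ ≤
      2 * Real.pi / Real.sqrt a * ∫ t in a..b, ‖T t‖ := by
    rw [← intervalIntegral.integral_of_le hab, ← intervalIntegral.integral_const_mul]
    refine intervalIntegral.norm_integral_le_of_norm_le hab ?_ (hTint'.const_mul _)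
    refine Filter.Eventually.of_forall (fun t ht => ?_)
    have ht0 : 0 < t := lt_trans ha0 ht.1
    rw [norm_mul, norm_deriv_E ht0]
    refine mul_le_mul_of_nonneg_right ?_ (norm_nonneg _)
    have := Real.sqrt_pos.2 ha0
    gcongr
    exact ht.1.le
  calc ‖E b * ∑ k ∈ Finset.Icc 0 ⌊b⌋₊, c k - E a * ∑ k ∈ Finset.Icc 0 ⌊a⌋₊, c k -
        ∫ t in Set.Ioc a b, deriv E t * ∑ k ∈ Finset.Icc 0 ⌊t⌋₊, c k‖
      ≤ ‖E b * T b‖ + ‖E a * T a‖ + ‖∫ t in Set.Ioc a b, deriv E t * T t‖ := by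
        refine (norm_sub_le _ _).trans ?_
        exact add_le_add (norm_sub_le _ _) le_rfl
    _ ≤ ‖T b‖ + ‖T a‖ + 2 * Real.pi / Real.sqrt a * ∫ t in a..b, ‖T t‖ := by
        rw [norm_mul, norm_mul, norm_E, norm_E, one_mul, one_mul]
        exact add_le_add le_rfl h3

private theorem T_int {a b : ℝ} (ha : 0 ≤ a) (hab : a ≤ b) :
    IntervalIntegrable (fun t => ‖T t‖) volume a b := by
  have hTint : IntegrableOn T (Set.Icc a b) := by
    have := integrableOn_mul_sum_Icc c (m := 0) ha (g := fun _ : ℝ => (1 : ℂ)) (a := a) (b := b)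
      (by simp)
    simp only [one_mul] at this
    exact this
  exact ((intervalIntegrable_iff_integrableOn_Icc_of_le hab).2 hTint).norm

/-- the averaged inequality -/
private theorem mean_T {X : ℝ} (hX : 1 ≤ X) :
    Real.sqrt X * (((Finset.Ioc ⌊2 * X⌋₊ ⌊7 * X⌋₊).filter Nat.Prime).card : ℝ) ≤
      (1 + 2 * Real.pi) * ∫ t in X..8 * X, ‖T t‖ := by
  have hX0 : 0 < X := by linarith
  set N : ℝ := (((Finset.Ioc ⌊2 * X⌋₊ ⌊7 * X⌋₊).filter Nat.Prime).card : ℝ) with hN
  set I : ℝ := ∫ t in X..8 * X, ‖T t‖ with hI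
  have hsq : 0 < Real.sqrt X := Real.sqrt_pos.2 hX0
  have hpi := Real.pi_pos
  have hIsub : ∀ a b : ℝ, X ≤ a → a ≤ b → b ≤ 8 * X → ∫ t in a..b, ‖T t‖ ≤ I := by
    intro a b h1 h2 h3
    rw [hI]
    refine intervalIntegral.integral_mono_interval h1 h2 h3
      (Filter.Eventually.of_forall (fun t => norm_nonneg _)) (T_int hX0.le (by linarith))
  have hIpos : 0 ≤ I := by
    have := hIsub X X le_rfl le_rfl (by linarith)
    simpa using this
  -- pointwise
  have hpt : ∀ a ∈ Set.Icc X (2 * X), ∀ b ∈ Set.Icc (7 * X) (8 * X),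
      N ≤ ‖T b‖ + ‖T a‖ + 2 * Real.pi / Real.sqrt X * I := by
    intro a ha b hb
    have hab : a ≤ b := by linarith [ha.2, hb.1]
    have h1 := card_le (a := a) (b := b) (by linarith [ha.1]) hab
    have h2 : N ≤ (((Finset.Ioc ⌊a⌋₊ ⌊b⌋₊).filter Nat.Prime).card : ℝ) := by
      rw [hN]
      norm_cast
      apply Finset.card_le_card
      apply Finset.filter_subset_filter
      apply Finset.Ioc_subset_Ioc
      · exact Nat.floor_le_floor ha.2
      · exact Nat.floor_le_floor hb.1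
    have h3 : 2 * Real.pi / Real.sqrt a * ∫ t in a..b, ‖T t‖ ≤
        2 * Real.pi / Real.sqrt X * I := by
      refine mul_le_mul ?_ (hIsub a b ha.1 hab hb.2) ?_ (by positivity)
      · have := ha.1
        gcongr
      · exact intervalIntegral.integral_nonneg hab (fun t _ => norm_nonneg _)
    linarith
  -- integrate over `a`
  have hI1 : ∀ b ∈ Set.Icc (7 * X) (8 * X),
      X * N ≤ X * ‖T b‖ + (∫ t in X..2 * X, ‖T t‖) + 2 * Real.pi * Real.sqrt X * I := by
    intro b hb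
    have h1 : ∫ _ in X..2 * X, N ≤
        ∫ a in X..2 * X, ((‖T b‖ + 2 * Real.pi / Real.sqrt X * I) + ‖T a‖) := by
      refine intervalIntegral.integral_mono_on (by linarith) (by simp)
        ((by simp : IntervalIntegrable (fun _ => ‖T b‖ + 2 * Real.pi / Real.sqrt X * I) volume X
          (2 * X)).add (T_int hX0.le (by linarith))) ?_
      intro a ha
      linarith [hpt a ha b hb]
    rw [intervalIntegral.integral_const, intervalIntegral.integral_add (by simp)
      (T_int hX0.le (by linarith)), intervalIntegral.integral_const, smul_eq_mul, smul_eq_mul] at h1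
    have h2 : (2 * X - X) * (‖T b‖ + 2 * Real.pi / Real.sqrt X * I) =
        X * ‖T b‖ + 2 * Real.pi * Real.sqrt X * I := by
      have : X = Real.sqrt X * Real.sqrt X := (Real.mul_self_sqrt hX0.le).symm
      have h3 : (2 * X - X) = X := by ring
      rw [h3, mul_add]
      congr 1
      have h4 : X * (2 * Real.pi / Real.sqrt X * I) =
          (X / Real.sqrt X) * (2 * Real.pi * I) := by ring
      have h5 : X / Real.sqrt X = Real.sqrt X := Real.div_sqrt
      rw [h4, h5]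
      ring
    have h3 : (2 * X - X) * N = X * N := by ring
    linarith
  -- integrate over `b`
  have hI2 : ∫ _ in (7 * X)..8 * X, X * N ≤
      ∫ b in (7 * X)..8 * X, (((∫ t in X..2 * X, ‖T t‖) + 2 * Real.pi * Real.sqrt X * I) +
        X * ‖T b‖) := by
    refine intervalIntegral.integral_mono_on (by linarith) (by simp)
      ((by simp : IntervalIntegrable (fun _ => (∫ t in X..2 * X, ‖T t‖) +
        2 * Real.pi * Real.sqrt X * I) volume (7 * X) (8 * X)).add
        ((T_int (by positivity) (by linarith)).const_mul _)) ?_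
    intro b hb
    linarith [hI1 b hb]
  rw [intervalIntegral.integral_const, intervalIntegral.integral_add (by simp)
      ((T_int (by positivity) (by linarith)).const_mul _), intervalIntegral.integral_const,
      intervalIntegral.integral_const_mul, smul_eq_mul, smul_eq_mul] at hI2
  have h12 : (∫ t in X..2 * X, ‖T t‖) + ∫ t in (7 * X)..8 * X, ‖T t‖ ≤ I := by
    have h1 := intervalIntegral.integral_add_adjacent_intervals
      (T_int (a := X) (b := 2 * X) hX0.le (by linarith))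
      (T_int (a := 2 * X) (b := 8 * X) (by positivity) (by linarith))
    have h2 : ∫ t in (7 * X)..8 * X, ‖T t‖ ≤ ∫ t in (2 * X)..8 * X, ‖T t‖ :=
      intervalIntegral.integral_mono_interval (by linarith) (by linarith) le_rfl
        (Filter.Eventually.of_forall (fun t => norm_nonneg _))
        (T_int (by positivity) (by linarith))
    linarith
  have h3 : X * N ≤ (1 + 2 * Real.pi * Real.sqrt X) * I := by
    have h4 : (8 * X - 7 * X) = X := by ring
    rw [h4] at hI2
    have h5 : X * (X * N) ≤ X * ((∫ t in X..2 * X, ‖T t‖) + 2 * Real.pi * Real.sqrt X * I +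
        ∫ t in (7 * X)..8 * X, ‖T t‖) := by linarith
    have h6 := le_of_mul_le_mul_left h5 hX0
    linarith
  have h7 : (1 : ℝ) ≤ Real.sqrt X := by
    rw [show (1 : ℝ) = Real.sqrt 1 by simp]
    exact Real.sqrt_le_sqrt hX
  have h8 : Real.sqrt X * (Real.sqrt X * N) ≤ Real.sqrt X * ((1 + 2 * Real.pi) * I) := by
    have h9 : Real.sqrt X * (Real.sqrt X * N) = X * N := by
      rw [← mul_assoc, Real.mul_self_sqrt hX0.le]
    rw [h9]
    nlinarith
  exact le_of_mul_le_mul_left h8 hsq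

/-- Chebyshev: many primes in `(2 X, 7 X]` -/
private theorem many_primes : ∃ X₀ : ℝ, ∀ X ≥ X₀,
    X / (2 * Real.log X) ≤ (((Finset.Ioc ⌊2 * X⌋₊ ⌊7 * X⌋₊).filter Nat.Prime).card : ℝ) := by
  have hasym : ∀ᶠ X : ℝ in atTop, Real.log 2 + Real.log (7 * X + 2) +
      2 * Real.sqrt (7 * X) * Real.log (7 * X) ≤ X := by
    have hA : ∀ᶠ y : ℝ in atTop, Real.log y ≤ 1 / 40 * Real.sqrt y := by
      have h := (isLittleO_log_rpow_atTop (r := 1 / 2) (by norm_num)).bound
        (by norm_num : (0 : ℝ) < 1 / 40)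
      filter_upwards [h] with y hy
      rw [Real.sqrt_eq_rpow]
      refine (le_abs_self _).trans ?_
      rw [← Real.norm_eq_abs]
      refine hy.trans (le_of_eq ?_)
      rw [Real.norm_eq_abs, ← Real.sqrt_eq_rpow, abs_of_nonneg (Real.sqrt_nonneg _)]
    have h7 : Tendsto (fun X : ℝ => 7 * X) atTop atTop :=
      tendsto_id.const_mul_atTop (by norm_num)
    have h9 : Tendsto (fun X : ℝ => 9 * X) atTop atTop :=
      tendsto_id.const_mul_atTop (by norm_num)
    filter_upwards [h7.eventually hA, h9.eventually hA, eventually_ge_atTop (4 : ℝ)] with X h1 h2 h3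
    have hX0 : 0 < X := by linarith
    have hs7 : Real.sqrt (7 * X) * Real.sqrt (7 * X) = 7 * X := Real.mul_self_sqrt (by linarith)
    have hs9 : Real.sqrt (9 * X) ≤ 9 * X := by
      have := Real.mul_self_sqrt (show 0 ≤ 9 * X by linarith)
      have h1' : 1 ≤ Real.sqrt (9 * X) := by
        rw [show (1 : ℝ) = Real.sqrt 1 by simp]
        exact Real.sqrt_le_sqrt (by linarith)
      nlinarith
    have h4 : Real.log (7 * X + 2) ≤ Real.log (9 * X) :=
      Real.log_le_log (by linarith) (by linarith)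
    have h5 : Real.sqrt (7 * X) * Real.log (7 * X) ≤ 7 * X / 40 := by
      have h0 : 0 ≤ Real.sqrt (7 * X) := Real.sqrt_nonneg _
      nlinarith
    have h6 : Real.log 2 ≤ 1 := by linarith [Real.log_two_lt_d9]
    nlinarith
  obtain ⟨X₁, hX₁⟩ := eventually_atTop.1 hasym
  refine ⟨max X₁ 7, fun X hX => ?_⟩
  have h7 : 7 ≤ X := (le_max_right _ _).trans hX
  have hX1 := hX₁ X ((le_max_left _ _).trans hX)
  have hX0 : 0 < X := by linarith
  have hlow := Chebyshev.theta_ge' (x := 7 * X) (by linarith)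
  have hup := Chebyshev.theta_le_log4_mul_x (x := 2 * X) (by linarith)
  have hlog4 : Real.log 4 = 2 * Real.log 2 := by
    rw [show (4 : ℝ) = 2 ^ 2 by norm_num, Real.log_pow]
    norm_num
  rw [hlog4] at hup
  have hl2 : (2 : ℝ) / 3 ≤ Real.log 2 := by linarith [Real.log_two_gt_d9]
  have hdiff : X ≤ Chebyshev.theta (7 * X) - Chebyshev.theta (2 * X) := by nlinarith
  have hlog7 : 0 < Real.log (7 * X) := Real.log_pos (by linarith)
  have hcount : Chebyshev.theta (7 * X) - Chebyshev.theta (2 * X) ≤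
      (((Finset.Ioc ⌊2 * X⌋₊ ⌊7 * X⌋₊).filter Nat.Prime).card : ℝ) * Real.log (7 * X) := by
    have hfl : ⌊2 * X⌋₊ ≤ ⌊7 * X⌋₊ := Nat.floor_le_floor (by linarith)
    have h1 : Chebyshev.theta (7 * X) = Chebyshev.theta (2 * X) +
        ∑ p ∈ (Finset.Ioc ⌊2 * X⌋₊ ⌊7 * X⌋₊).filter Nat.Prime, Real.log p := by
      unfold Chebyshev.theta
      rw [← Finset.Ioc_union_Ioc_eq_Ioc (Nat.zero_le _) hfl, Finset.filter_union,
        Finset.sum_union]
      apply Finset.disjoint_filter_filter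
      exact Finset.Ioc_disjoint_Ioc_of_le le_rfl
    rw [h1, add_sub_cancel_left, ← nsmul_eq_mul]
    apply Finset.sum_le_card_nsmul
    intro p hp
    rw [Finset.mem_filter, Finset.mem_Ioc] at hp
    apply Real.log_le_log
    · exact_mod_cast hp.2.pos
    · exact (Nat.le_floor_iff (by linarith)).1 hp.1.2
  have hlogX : 0 < Real.log X := Real.log_pos (by linarith)
  have hlog2X : Real.log (7 * X) ≤ 2 * Real.log X := by
    rw [Real.log_mul (by norm_num) hX0.ne']
    have := Real.log_le_log (by norm_num : (0 : ℝ) < 7) h7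
    linarith
  rw [div_le_iff₀ (by positivity)]
  calc X ≤ (((Finset.Ioc ⌊2 * X⌋₊ ⌊7 * X⌋₊).filter Nat.Prime).card : ℝ) * Real.log (7 * X) :=
        hdiff.trans hcount
    _ ≤ (((Finset.Ioc ⌊2 * X⌋₊ ⌊7 * X⌋₊).filter Nat.Prime).card : ℝ) * (2 * Real.log X) := by
        gcongr

private theorem S_eq_T {t : ℝ} (ht : t ∉ Set.range (Nat.cast : ℕ → ℝ)) (h0 : 0 ≤ t) :
    S t = T t := by
  have hfl : (⌊t⌋₊ : ℝ) < t := by
    refine lt_of_le_of_ne (Nat.floor_le h0) (fun h => ht ⟨_, h⟩)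
  have hceil : ⌈t⌉₊ = ⌊t⌋₊ + 1 := by
    rw [Nat.ceil_eq_iff (by omega)]
    constructor
    · simpa using hfl
    · push_cast
      exact (Nat.lt_floor_add_one t).le
  unfold S T
  rw [hceil]
  have h1 : Finset.Icc 0 ⌊t⌋₊ = Finset.range (⌊t⌋₊ + 1) := by
    ext k
    simp
  rw [h1, Finset.sum_filter]
  rfl

private theorem integral_S_eq {a b : ℝ} (ha : 0 ≤ a) (hab : a ≤ b) :
    ∫ t in a..b, ‖S t‖ = ∫ t in a..b, ‖T t‖ := by
  apply intervalIntegral.integral_congr_ae
  filter_upwards [(Set.countable_range (Nat.cast : ℕ → ℝ)).ae_notMem volume] with t ht htab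
  rw [Set.uIoc_of_le hab] at htab
  rw [S_eq_T ht (ha.trans htab.1.le)]

/-- lower bound in mean -/
theorem mean_S : ∃ X₀ : ℝ, ∀ X ≥ X₀,
    X * Real.sqrt X / (15 * Real.log X) ≤ ∫ t in X..8 * X, ‖S t‖ := by
  obtain ⟨X₁, hX₁⟩ := many_primes
  refine ⟨max X₁ 7, fun X hX => ?_⟩
  have h7 : 7 ≤ X := (le_max_right _ _).trans hX
  have h1 := hX₁ X ((le_max_left _ _).trans hX)
  have h2 := mean_T (X := X) (by linarith)
  rw [integral_S_eq (by linarith) (by linarith)]
  have hlogX : 0 < Real.log X := Real.log_pos (by linarith)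
  have hsq : 0 < Real.sqrt X := Real.sqrt_pos.2 (by linarith)
  have hI : 0 ≤ ∫ t in X..8 * X, ‖T t‖ :=
    intervalIntegral.integral_nonneg (by linarith) (fun t _ => norm_nonneg _)
  have hpi : Real.pi < 3.15 := Real.pi_lt_d2
  have h3 : Real.sqrt X * (X / (2 * Real.log X)) ≤ (15 / 2) * ∫ t in X..8 * X, ‖T t‖ := by
    calc Real.sqrt X * (X / (2 * Real.log X))
        ≤ Real.sqrt X * (((Finset.Ioc ⌊2 * X⌋₊ ⌊7 * X⌋₊).filter Nat.Prime).card : ℝ) := by
          gcongr
      _ ≤ (1 + 2 * Real.pi) * ∫ t in X..8 * X, ‖T t‖ := h2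
      _ ≤ (15 / 2) * ∫ t in X..8 * X, ‖T t‖ := by
          apply mul_le_mul_of_nonneg_right _ hI
          linarith
  have h4 : X * Real.sqrt X / (15 * Real.log X) =
      (2 / 15) * (Real.sqrt X * (X / (2 * Real.log X))) := by
    field_simp
  rw [h4]
  linarith

/-- no exponent below `1 / 2` -/
theorem omega_S (α : ℝ) (hα : α < 1 / 2) (C : ℝ) : ∃ X₀ : ℝ, ∀ X ≥ X₀, ∃ N : ℕ,
    X ≤ N ∧ (N : ℝ) ≤ 8 * X + 1 ∧ C * (N : ℝ) ^ α <
      ‖∑ p ∈ (Finset.range N).filter Nat.Prime,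
        Complex.exp (2 * (Real.pi : ℂ) * Complex.I * (((2 * Real.sqrt (p : ℝ)) : ℝ) : ℂ))‖ := by
  obtain ⟨X₁, hX₁⟩ := mean_S
  obtain ⟨β, hβ0, hβ, hαβ⟩ : ∃ β : ℝ, 0 ≤ β ∧ β < 1 / 2 ∧ α ≤ β :=
    ⟨max α 0, le_max_right _ _, max_lt hα (by norm_num), le_max_left _ _⟩
  set K : ℝ := 105 * (|C| + 1) * 9 ^ β with hK
  have hKpos : 0 < K := by positivity
  have hlittle := (isLittleO_log_rpow_atTop (r := 1 / 2 - β) (by linarith)).bound
    (by positivity : (0 : ℝ) < 1 / K)
  obtain ⟨X₂, hX₂⟩ := eventually_atTop.1 hlittle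
  refine ⟨max X₁ (max X₂ 7), fun X hX => ?_⟩
  have h7 : 7 ≤ X := (le_max_right _ _).trans ((le_max_right _ _).trans hX)
  have h1 := hX₁ X ((le_max_left _ _).trans hX)
  have h2 := hX₂ X ((le_max_left _ _).trans ((le_max_right _ _).trans hX))
  have hX0 : 0 < X := by linarith
  have hlogX : 0 < Real.log X := Real.log_pos (by linarith)
  by_contra hcon
  push Not at hcon
  have hS : ∀ t ∈ Set.uIoc X (8 * X), ‖‖S t‖‖ ≤ |C| * (9 * X) ^ β := by
    intro t ht
    rw [Set.uIoc_of_le (by linarith)] at ht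
    rw [norm_norm]
    have ha : X ≤ (⌈t⌉₊ : ℝ) := ht.1.le.trans (Nat.le_ceil t)
    have hb : (⌈t⌉₊ : ℝ) ≤ 8 * X + 1 := by
      have := (Nat.ceil_lt_add_one (a := t) (by linarith [ht.1])).le
      linarith [ht.2]
    have hc := hcon ⌈t⌉₊ ha hb
    have hN1 : (1 : ℝ) ≤ (⌈t⌉₊ : ℝ) := by linarith
    calc ‖S t‖ ≤ C * (⌈t⌉₊ : ℝ) ^ α := hc
      _ ≤ |C| * (⌈t⌉₊ : ℝ) ^ β := by
          have h3 : (0 : ℝ) ≤ (⌈t⌉₊ : ℝ) ^ α := by positivity
          have h4 : (⌈t⌉₊ : ℝ) ^ α ≤ (⌈t⌉₊ : ℝ) ^ β := Real.rpow_le_rpow_of_exponent_le hN1 hαβ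
          calc C * (⌈t⌉₊ : ℝ) ^ α ≤ |C| * (⌈t⌉₊ : ℝ) ^ α :=
                mul_le_mul_of_nonneg_right (le_abs_self C) h3
            _ ≤ |C| * (⌈t⌉₊ : ℝ) ^ β := mul_le_mul_of_nonneg_left h4 (abs_nonneg C)
      _ ≤ |C| * (9 * X) ^ β := by
          apply mul_le_mul_of_nonneg_left _ (abs_nonneg C)
          apply Real.rpow_le_rpow (by linarith) (by linarith) hβ0
  have hint := intervalIntegral.norm_integral_le_of_norm_le_const hS
  have h3 : ∫ t in X..8 * X, ‖S t‖ ≤ |C| * (9 * X) ^ β * (7 * X) := by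
    refine (le_abs_self _).trans ?_
    rw [← Real.norm_eq_abs]
    refine hint.trans (le_of_eq ?_)
    rw [show 8 * X - X = 7 * X by ring, abs_of_pos (show (0 : ℝ) < 7 * X by linarith)]
  have h4 : X * Real.sqrt X ≤ |C| * (9 * X) ^ β * (7 * X) * (15 * Real.log X) := by
    have := h1.trans h3
    rwa [div_le_iff₀ (by positivity)] at this
  have h5 : Real.log X ≤ 1 / K * X ^ (1 / 2 - β) := by
    rw [Real.norm_of_nonneg hlogX.le, Real.norm_of_nonneg (by positivity)] at h2
    exact h2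
  have h6 : X * Real.sqrt X ≤ |C| * (9 * X) ^ β * (7 * X) * (15 * (1 / K * X ^ (1 / 2 - β))) := by
    refine h4.trans ?_
    gcongr
  have h7' : (9 * X) ^ β = 9 ^ β * X ^ β := Real.mul_rpow (by norm_num) hX0.le
  have h8 : X ^ β * X ^ (1 / 2 - β) = Real.sqrt X := by
    rw [← Real.rpow_add hX0, Real.sqrt_eq_rpow]
    congr 1
    ring
  have h9 : |C| * (9 * X) ^ β * (7 * X) * (15 * (1 / K * X ^ (1 / 2 - β))) =
      (|C| / (|C| + 1)) * (X * Real.sqrt X) := by
    rw [h7', ← h8, hK]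
    have : (9 : ℝ) ^ β ≠ 0 := by positivity
    have h10 : |C| + 1 ≠ 0 := by positivity
    field_simp
    ring
  rw [h9] at h6
  have h10 : 0 < X * Real.sqrt X := by
    have := Real.sqrt_pos.2 hX0
    positivity
  have h11 : |C| / (|C| + 1) < 1 := by
    rw [div_lt_one (by positivity)]
    linarith
  nlinarith

end Pool.Agent.Lib_MP_88c527
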